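import Pool.Agent.NPX.Stmts

/-!
# Squad NPX, row TRN: the transfinite construction
-/

set_option autoImplicit false

open Cardinal Set

namespace Pool.Agent.NPX.H58

open Pool.Agent.NPX

/-- a small union of finite sets -/
theorem trn_cover (A : Type) (hA : #A < 𝔠) (F : A → Set (ℕ → Bool)) (hF : ∀ a, (F a).Finite) :
    #(⋃ a, F a : Set (ℕ → Bool)) < 𝔠 := by
  refine (Cardinal.mk_iUnion_le F).trans_lt ?_
  refine lt_of_le_of_lt (mul_le_mul_right (ciSup_le' fun a => ?_ : (⨆ a, #(F a)) ≤ ℵ₀) _) ?_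
  · exact (Cardinal.lt_aleph0_iff_set_finite.2 (hF a)).le
  · exact Cardinal.mul_lt_of_lt aleph0_le_continuum hA aleph0_lt_continuum

variable {K : Type} [CommGroup K]

/-- the cardinality of the closure -/
theorem trn_card (Z : Set K) (hZ : #Z < 𝔠) : #(Subgroup.closure Z) < 𝔠 := by
  let w : Z × Bool → K := fun p => if p.2 then (p.1 : K) else (p.1 : K)⁻¹
  let W : List (Z × Bool) → K := fun l => (l.map w).prod
  have hinv : ∀ l : List (Z × Bool), ∃ l', W l' = (W l)⁻¹ := by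
    intro l
    induction l with
    | nil => exact ⟨[], by simp [W]⟩
    | cons p l ih =>
      obtain ⟨l', hl'⟩ := ih
      refine ⟨(p.1, !p.2) :: l', ?_⟩
      have e1 : W ((p.1, !p.2) :: l') = w (p.1, !p.2) * W l' := by simp [W]
      have e2 : W (p :: l) = w p * W l := by simp [W]
      have e3 : w (p.1, !p.2) = (w p)⁻¹ := by
        rcases p with ⟨z, c⟩
        cases c <;> simp [w]
      rw [e1, e2, e3, hl', mul_inv]
  have hsub : ((Subgroup.closure Z : Subgroup K) : Set K) ⊆ Set.range W := by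
    intro z hz
    refine Subgroup.closure_induction (p := fun z _ => z ∈ Set.range W) ?_ ?_ ?_ ?_ hz
    · intro x hx
      exact ⟨[(⟨x, hx⟩, true)], by simp [W, w]⟩
    · exact ⟨[], by simp [W]⟩
    · rintro _ _ _ _ ⟨l1, rfl⟩ ⟨l2, rfl⟩
      exact ⟨l1 ++ l2, by simp [W]⟩
    · rintro _ _ ⟨l, rfl⟩
      exact hinv l
  have h1 : #((Subgroup.closure Z : Subgroup K) : Set K) ≤ #(List (Z × Bool)) :=
    (Cardinal.mk_le_mk_of_subset hsub).trans Cardinal.mk_range_le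
  have h2 : #(List (Z × Bool)) ≤ max ℵ₀ #(Z × Bool) := Cardinal.mk_list_le_max _
  have h3 : #(Z × Bool) < 𝔠 := by
    rw [Cardinal.mk_prod, Cardinal.lift_id, Cardinal.lift_id]
    exact Cardinal.mul_lt_of_lt aleph0_le_continuum hZ
      ((Cardinal.mk_le_aleph0).trans_lt aleph0_lt_continuum)
  exact (h1.trans h2).trans_lt (max_lt aleph0_lt_continuum h3)

/-- one step of the construction -/
theorem trn_step (P : (ℕ → Bool) → K) (φ : K → K) (b : Prop) (G0 : Subgroup K)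
    (h1 : ∀ t : ℤ, (∀ σ, (P σ) ^ t ∈ G0) ∨ ∀ y, {σ | (P σ) ^ t = y}.Finite)
    (h2 : b → ∀ (t : ℤ) y, {σ | φ (P σ) * ((P σ) ^ t)⁻¹ = y}.Finite)
    (H : Subgroup K) (hH : #H < 𝔠) (Y : Set K) (hY : #Y < 𝔠) :
    ∃ σ, (∀ t : ℤ, (¬ ∀ σ', (P σ') ^ t ∈ G0) → ∀ g ∈ H, ∀ y ∈ Y, (P σ) ^ t * g ≠ y) ∧
      (b → ∀ t : ℤ, φ (P σ) * ((P σ) ^ t)⁻¹ ∉ H) := by
  by_contra hcon
  push Not at hcon
  let A1 : Type := {t : ℤ // ¬ ∀ σ', (P σ') ^ t ∈ G0} × (H × Y)
  let F1 : A1 → Set (ℕ → Bool) := fun a => {σ | (P σ) ^ (a.1 : ℤ) = (a.2.2 : K) * (a.2.1 : K)⁻¹}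
  let A2 : Type := {_p : ℤ × H // b}
  let F2 : A2 → Set (ℕ → Bool) := fun a => {σ | φ (P σ) * ((P σ) ^ a.1.1)⁻¹ = (a.1.2 : K)}
  have hA1 : #A1 < 𝔠 := by
    show #({t : ℤ // ¬ ∀ σ', (P σ') ^ t ∈ G0} × (H × Y)) < 𝔠
    rw [Cardinal.mk_prod, Cardinal.lift_id, Cardinal.lift_id, Cardinal.mk_prod, Cardinal.lift_id,
      Cardinal.lift_id]
    exact Cardinal.mul_lt_of_lt aleph0_le_continuum
      ((Cardinal.mk_le_aleph0).trans_lt aleph0_lt_continuum)
      (Cardinal.mul_lt_of_lt aleph0_le_continuum hH hY)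
  have hA2 : #A2 < 𝔠 := by
    refine (Cardinal.mk_subtype_le _).trans_lt ?_
    rw [Cardinal.mk_prod, Cardinal.lift_id, Cardinal.lift_id]
    exact Cardinal.mul_lt_of_lt aleph0_le_continuum
      ((Cardinal.mk_le_aleph0).trans_lt aleph0_lt_continuum) hH
  have hcov : (Set.univ : Set (ℕ → Bool)) ⊆ (⋃ a, F1 a) ∪ (⋃ a, F2 a) := by
    intro σ _
    by_cases ha : ∀ t : ℤ, (¬ ∀ σ', (P σ') ^ t ∈ G0) → ∀ g ∈ H, ∀ y ∈ Y, (P σ) ^ t * g ≠ y
    · obtain ⟨hb, t, ht⟩ := hcon σ (fun t ht g hg y hy => by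
        obtain ⟨σ', hσ'⟩ := ht
        exact ha t (fun hall => hσ' (hall σ')) g hg y hy)
      refine Or.inr (Set.mem_iUnion.2 ⟨⟨(t, ⟨_, ht⟩), hb⟩, ?_⟩)
      rfl
    · push Not at ha
      obtain ⟨t, ⟨σ', hσ'⟩, g, hg, y, hy, he⟩ := ha
      refine Or.inl (Set.mem_iUnion.2 ⟨(⟨t, fun hall => hσ' (hall σ')⟩, (⟨g, hg⟩, ⟨y, hy⟩)), ?_⟩)
      show (P σ) ^ t = y * g⁻¹
      rw [← he, mul_inv_cancel_right]
  have hle := Cardinal.mk_le_mk_of_subset hcov
  rw [Cardinal.mk_univ] at hle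
  have hc : #(ℕ → Bool) = 𝔠 := by simp
  rw [hc] at hle
  have hlt : #((⋃ a, F1 a) ∪ (⋃ a, F2 a) : Set (ℕ → Bool)) < 𝔠 := by
    refine (Cardinal.mk_union_le _ _).trans_lt (Cardinal.add_lt_of_lt aleph0_le_continuum ?_ ?_)
    · exact trn_cover A1 hA1 F1 fun a => (h1 a.1).resolve_left a.1.2 _
    · exact trn_cover A2 hA2 F2 fun a => h2 a.2 _ _
  exact absurd hle (not_le.2 hlt)

/-- closure of an insertion -/
theorem trn_ins (Z : Set K) (a z : K) (hz : z ∈ Subgroup.closure (insert a Z)) :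
    ∃ g ∈ Subgroup.closure Z, ∃ t : ℤ, z = a ^ t * g := by
  rw [Set.insert_eq, Subgroup.closure_union, Subgroup.mem_sup] at hz
  obtain ⟨y, hy, g, hg, rfl⟩ := hz
  rw [← Subgroup.zpowers_eq_closure, Subgroup.mem_zpowers_iff] at hy
  obtain ⟨t, rfl⟩ := hy
  exact ⟨g, hg, t, rfl⟩

section order

variable {J : Type} [LinearOrder J]

/-- finitely many generators suffice -/
theorem trn_dir (G0 : Subgroup K) (x : J → K) (S : Set J) (j : J) (hj : j ∈ S) (z : K)
    (hz : z ∈ Subgroup.closure ((G0 : Set K) ∪ x '' S)) :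
    ∃ i ∈ S, j ≤ i ∧ z ∈ Subgroup.closure ((G0 : Set K) ∪ x '' Set.Iic i) := by
  refine Subgroup.closure_induction
    (p := fun z _ => ∃ i ∈ S, j ≤ i ∧ z ∈ Subgroup.closure ((G0 : Set K) ∪ x '' Set.Iic i))
    ?_ ?_ ?_ ?_ hz
  · rintro z (hz | ⟨l, hl, rfl⟩)
    · exact ⟨j, hj, le_rfl, Subgroup.subset_closure (Or.inl hz)⟩
    · have hm : max j l ∈ S := by
        rcases max_choice j l with h | h <;> rw [h]
        · exact hj
        · exact hl
      exact ⟨max j l, hm, le_max_left _ _,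
        Subgroup.subset_closure (Or.inr ⟨l, le_max_right _ _, rfl⟩)⟩
  · exact ⟨j, hj, le_rfl, Subgroup.one_mem _⟩
  · rintro u v _ _ ⟨i1, hi1, hj1, h1⟩ ⟨i2, hi2, hj2, h2⟩
    have hm : max i1 i2 ∈ S := by
      rcases max_choice i1 i2 with h | h <;> rw [h]
      · exact hi1
      · exact hi2
    refine ⟨max i1 i2, hm, hj1.trans (le_max_left _ _), Subgroup.mul_mem _ ?_ ?_⟩
    · exact Subgroup.closure_mono (Set.union_subset_union_right _
        (Set.image_mono (Set.Iic_subset_Iic.2 (le_max_left _ _)))) h1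
    · exact Subgroup.closure_mono (Set.union_subset_union_right _
        (Set.image_mono (Set.Iic_subset_Iic.2 (le_max_right _ _)))) h2
  · rintro u _ ⟨i, hi, hj', h⟩
    exact ⟨i, hi, hj', Subgroup.inv_mem _ h⟩

/-- the construction over a well-order with small initial segments -/
theorem trn_order [WellFoundedLT J] (hJ : ∀ i : J, #(Set.Iio i) < 𝔠) (b : J → Prop)
    (P : J → (ℕ → Bool) → K) (φ : J → K → K) (G0 : Subgroup K) (hG0 : (G0 : Set K).Countable)
    (h1 : ∀ i (t : ℤ), (∀ σ, (P i σ) ^ t ∈ G0) ∨ ∀ y, {σ | (P i σ) ^ t = y}.Finite)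
    (h2 : ∀ i, b i → ∀ (t : ℤ) y, {σ | φ i (P i σ) * ((P i σ) ^ t)⁻¹ = y}.Finite) :
    ∃ G : Subgroup K, G0 ≤ G ∧ ∀ i, ∃ σ, P i σ ∈ G ∧ (b i → φ i (P i σ) ∉ G) := by
  classical
  -- the recursion
  have hex : ∃ s : J → (ℕ → Bool), ∀ i,
      (∀ t : ℤ, (¬ ∀ σ', (P i σ') ^ t ∈ G0) →
        ∀ g ∈ Subgroup.closure ((G0 : Set K) ∪ (fun j => P j (s j)) '' Set.Iio i),
          ∀ y ∈ (fun j => φ j (P j (s j))) '' Set.Iio i, (P i (s i)) ^ t * g ≠ y) ∧
      (b i → ∀ t : ℤ, φ i (P i (s i)) * ((P i (s i)) ^ t)⁻¹ ∉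
        Subgroup.closure ((G0 : Set K) ∪ (fun j => P j (s j)) '' Set.Iio i)) := by
    have hstep : ∀ (i : J) (prev : (j : J) → j < i → (ℕ → Bool)), ∃ σ : ℕ → Bool,
        (∀ t : ℤ, (¬ ∀ σ', (P i σ') ^ t ∈ G0) →
          ∀ g ∈ Subgroup.closure
              ((G0 : Set K) ∪ Set.range (fun j : Set.Iio i => P j.1 (prev j.1 j.2))),
            ∀ y ∈ Set.range (fun j : Set.Iio i => φ j.1 (P j.1 (prev j.1 j.2))),
              (P i σ) ^ t * g ≠ y) ∧
        (b i → ∀ t : ℤ, φ i (P i σ) * ((P i σ) ^ t)⁻¹ ∉ Subgroup.closure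
              ((G0 : Set K) ∪ Set.range (fun j : Set.Iio i => P j.1 (prev j.1 j.2)))) := by
      intro i prev
      refine trn_step (P i) (φ i) (b i) G0 (h1 i) (h2 i) _ (trn_card _ ?_) _ ?_
      · refine (Cardinal.mk_union_le _ _).trans_lt (Cardinal.add_lt_of_lt aleph0_le_continuum ?_ ?_)
        · exact (Cardinal.le_aleph0_iff_set_countable.2 hG0).trans_lt aleph0_lt_continuum
        · exact Cardinal.mk_range_le.trans_lt (hJ i)
      · exact Cardinal.mk_range_le.trans_lt (hJ i)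
    choose F hF using hstep
    set s : J → (ℕ → Bool) := (wellFounded_lt (α := J)).fix F with hs
    have hfix : ∀ i, s i = F i (fun j _ => s j) := by
      intro i
      rw [hs]
      exact WellFounded.fix_eq _ F i
    refine ⟨s, ?_⟩
    intro i
    have h := hF i (fun j _ => s j)
    rw [← hfix i] at h
    have e1 : Set.range (fun j : Set.Iio i => P j.1 (s j.1)) = (fun j => P j (s j)) '' Set.Iio i := by
      rw [Set.image_eq_range]
    have e2 : Set.range (fun j : Set.Iio i => φ j.1 (P j.1 (s j.1)))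
        = (fun j => φ j (P j (s j))) '' Set.Iio i := by
      rw [Set.image_eq_range]
    rw [e1, e2] at h
    exact h
  obtain ⟨s, hs⟩ := hex
  set x : J → K := fun j => P j (s j) with hx
  -- the claim
  have hclaim : ∀ i j, j ≤ i → b j →
      φ j (x j) ∉ Subgroup.closure ((G0 : Set K) ∪ x '' Set.Iic i) := by
    intro i
    induction i using WellFoundedLT.induction with
    | ind i ih =>
      intro j hji hbj hmem
      have hI : (G0 : Set K) ∪ x '' Set.Iic i = insert (x i) ((G0 : Set K) ∪ x '' Set.Iio i) := by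
        rw [← Set.Iio_insert, Set.image_insert_eq, Set.union_insert]
      rw [hI] at hmem
      obtain ⟨ha, hb⟩ := hs i
      obtain ⟨g, hg, t, he⟩ := trn_ins _ _ _ hmem
      rcases hji.lt_or_eq with hlt | rfl
      · by_cases hall : ∀ σ', (P i σ') ^ t ∈ G0
        · have hz : φ j (x j) ∈ Subgroup.closure ((G0 : Set K) ∪ x '' Set.Iio i) := by
            rw [he]
            exact Subgroup.mul_mem _ (Subgroup.subset_closure (Or.inl (hall (s i)))) hg
          obtain ⟨i', hi', hj', hz'⟩ := trn_dir G0 x (Set.Iio i) j hlt _ hz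
          exact ih i' hi' j hj' hbj hz'
        · exact ha t hall g hg (φ j (x j)) ⟨j, hlt, rfl⟩ he.symm
      · refine hb hbj t ?_
        have e : φ j (P j (s j)) * ((P j (s j)) ^ t)⁻¹ = g := by
          have he' : φ j (P j (s j)) = (P j (s j)) ^ t * g := he
          rw [he', mul_comm, inv_mul_cancel_left]
        rw [e]
        exact hg
  refine ⟨Subgroup.closure ((G0 : Set K) ∪ Set.range x),
    fun g hg => Subgroup.subset_closure (Or.inl hg), ?_⟩
  intro i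
  refine ⟨s i, Subgroup.subset_closure (Or.inr ⟨i, rfl⟩), ?_⟩
  intro hbi hmem
  rw [← Set.image_univ] at hmem
  obtain ⟨i', -, hj', hz⟩ := trn_dir G0 x Set.univ i (Set.mem_univ i) _ hmem
  exact hclaim i' i hj' hbi hz

end order

/-- **Row TRN**. -/
theorem trn : TrnStmt := by
  intro K _ I b P φ G0 hG0 hI h1 h2
  obtain ⟨e⟩ : Nonempty ((#I).ord.ToType ≃ I) := Cardinal.eq.1 (Cardinal.mk_ord_toType _)
  obtain ⟨G, hG, hG'⟩ := trn_order (J := (#I).ord.ToType)
    (fun i => (Cardinal.mk_Iio_ord_toType i).trans_le hI) (fun i => b (e i))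
    (fun i => P (e i)) (fun i => φ (e i)) G0 hG0 (fun i => h1 (e i)) (fun i => h2 (e i))
  refine ⟨G, hG, ?_⟩
  intro i
  have h := hG' (e.symm i)
  simpa using h

end Pool.Agent.NPX.H58
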